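import Pool.Agent.H180.RS.Stmts2

/-! RS2-VAL: the value of the exotic class at the distribution of Gauss sums. -/

set_option autoImplicit false

namespace Pool.Agent.Q296.RS

open Finset NumberField Pool.Agent.H916R2 Pool.Agent.Q59.FS Pool.Agent.Q59.RL Pool.Agent.H180.RS

lemma toU_div {x y : ℂ} (hx : x ≠ 0) (hy : y ≠ 0) : toU (x / y) = toU x - toU y := by
  have h := toU_mul (div_ne_zero hx hy) hy
  rw [div_mul_cancel₀ x hy] at h
  rw [h, add_sub_cancel_right]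

variable {ℓ m : ℕ} [hℓ : Fact ℓ.Prime] [NeZero m]

lemma nz_ne {ψ : AddChar (ZMod ℓ) ℂ} (hψ : ψ ≠ 1) {η : MulChar (ZMod ℓ) ℂ} (hη : η ≠ 1) :
    nz ψ η ≠ 0 := by
  unfold nz
  apply div_ne_zero (gauss_ne hη hψ)
  have : (0:ℝ) < Real.sqrt ℓ := Real.sqrt_pos.mpr (by exact_mod_cast hℓ.out.pos)
  exact_mod_cast this.ne'

lemma chi_iota {p : ℕ} [Fact p.Prime] (hpm : p ∣ m) {χ : MulChar (ZMod ℓ) ℂ} (hχ : orderOf χ = m)
    (g i : ℕ) : χ ^ (iota (m / p) ((g : ZMod p) ^ i) : ZMod m).val = (χ ^ (m / p)) ^ g ^ i := by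
  have h1 : (g : ZMod p) ^ i = ((g ^ i : ℕ) : ZMod p) := by push_cast; rfl
  rw [h1, iota_natCast (Nat.div_mul_cancel hpm), ZMod.val_natCast, ← pow_mul]
  conv_rhs => rw [← pow_mod_orderOf, hχ]

lemma iota_ne {p : ℕ} [hp : Fact p.Prime] (hpm : p ∣ m) (i : ℕ) :
    (iota (m / p) ((gn p : ZMod p) ^ i) : ZMod m) ≠ 0 := fun h =>
  (gn_spec p).pow_ne_zero i (iota_eq_zero (Nat.div_mul_cancel hpm) h)

lemma iota_sub_ne {p q : ℕ} [hp : Fact p.Prime] [hq : Fact q.Prime] (hpq : p ≠ q) (hpm : p ∣ m)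
    (hqm : q ∣ m) (a b : ℕ) :
    (iota (m / q) ((gn q : ZMod q) ^ a) : ZMod m) - iota (m / p) ((gn p : ZMod p) ^ b) ≠ 0 := by
  intro h
  have h1 : ((p : ℕ) : ZMod m) * iota (m / q) ((gn q : ZMod q) ^ a) =
      ((p : ℕ) : ZMod m) * iota (m / p) ((gn p : ZMod p) ^ b) := by rw [sub_eq_zero.mp h]
  rw [← iota_natMul (Nat.div_mul_cancel hqm), ← iota_natMul (Nat.div_mul_cancel hpm),
    ZMod.natCast_self, zero_mul, iota_zero] at h1
  have h2 := iota_eq_zero (Nat.div_mul_cancel hqm) h1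
  rcases mul_eq_zero.mp h2 with h3 | h3
  · rw [ZMod.natCast_eq_zero_iff] at h3
    exact hpq ((Nat.prime_dvd_prime_iff_eq hq.out hp.out).mp h3).symm
  · exact (gn_spec q).pow_ne_zero a h3

theorem val : PropVal := by
  intro ℓ m p q hℓ _ _ hp hq hpq hpm hqm χ ψ hψ hχ
  have : Fact p.Prime := ⟨hp⟩
  have : Fact q.Prime := ⟨hq⟩
  unfold Xc H180.RS.XX ev
  have hc : ∀ x : ZMod m, x ≠ 0 → cD χ ψ x = toU (nz ψ (χ ^ x.val)) := by
    intro x hx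
    unfold cD
    rw [if_neg hx]
  have hne : ∀ x : ZMod m, x ≠ 0 → nz ψ (χ ^ x.val) ≠ 0 := fun x hx => nz_ne hψ (pw_ne_one hχ hx)
  have hX : ∀ a b : ℕ, χ ^ ((iota (m / q) ((gn q : ZMod q) ^ a) : ZMod m) -
      iota (m / p) ((gn p : ZMod p) ^ b)).val =
      (χ ^ (m / q)) ^ gn q ^ a * ((χ ^ (m / p)) ^ gn p ^ b)⁻¹ := by
    intro a b
    rw [sub_eq_add_neg, pw_add hχ, pw_neg hχ, chi_iota hqm hχ, chi_iota hpm hχ]
  have n1 : ∀ a b : ℕ, nz ψ ((χ ^ (m / q)) ^ gn q ^ a * ((χ ^ (m / p)) ^ gn p ^ b)⁻¹) ≠ 0 := by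
    intro a b
    rw [← hX]
    exact hne _ (iota_sub_ne hpq hpm hqm a b)
  have n2 : ∀ i : ℕ, nz ψ ((χ ^ (m / q)) ^ gn q ^ i) ≠ 0 := by
    intro i
    rw [← chi_iota hqm hχ]
    exact hne _ (iota_ne hqm i)
  have n3 : ∀ i : ℕ, nz ψ ((χ ^ (m / p)) ^ gn p ^ i) ≠ 0 := by
    intro i
    rw [← chi_iota hpm hχ]
    exact hne _ (iota_ne hpm i)
  rw [toU_div (mul_ne_zero (prod_ne_zero_iff.mpr fun a _ => prod_ne_zero_iff.mpr fun b _ => n1 a b)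
      (prod_ne_zero_iff.mpr fun i _ => n2 i)) (prod_ne_zero_iff.mpr fun i _ => n3 i),
    toU_mul (prod_ne_zero_iff.mpr fun a _ => prod_ne_zero_iff.mpr fun b _ => n1 a b)
      (prod_ne_zero_iff.mpr fun i _ => n2 i),
    toU_prod _ _ (fun a _ => prod_ne_zero_iff.mpr fun b _ => n1 a b),
    toU_prod _ _ (fun i _ => n2 i), toU_prod _ _ (fun i _ => n3 i)]
  congr 1
  · congr 1
    · refine sum_congr rfl fun a _ => ?_
      rw [toU_prod _ _ (fun b _ => n1 a b)]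
      refine sum_congr rfl fun b _ => ?_
      rw [hc _ (iota_sub_ne hpq hpm hqm a b), hX]
    · refine sum_congr rfl fun i _ => ?_
      rw [hc _ (iota_ne hqm i), chi_iota hqm hχ]
  · refine sum_congr rfl fun i _ => ?_
    rw [hc _ (iota_ne hpm i), chi_iota hpm hχ]

end Pool.Agent.Q296.RS
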