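import Pool.Agent.H180.RS.Stmts

set_option autoImplicit false

/-!
A Kummer extension of a cyclotomic field which is Galois over the rationals.
-/

namespace Pool.Agent.Q296.RS

open NumberField Polynomial

/-- the polynomial over the rationals -/
noncomputable def P0 (K : Type) [Field K] [NumberField K] (m : ℕ) (C : Finset (𝓞 K)) : ℚ[X] :=
  ∏ c ∈ C, expand ℚ m (minpoly ℚ (c : K))

theorem expand_ne (K : Type) [Field K] [NumberField K] {m : ℕ} (hm : 0 < m) (c : 𝓞 K) :
    expand ℚ m (minpoly ℚ (c : K)) ≠ 0 := by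
  rw [Ne, expand_eq_zero hm]
  exact minpoly.ne_zero (Algebra.IsIntegral.isIntegral _)

theorem P0_ne (K : Type) [Field K] [NumberField K] {m : ℕ} (hm : 0 < m) (C : Finset (𝓞 K)) :
    P0 K m C ≠ 0 := by
  unfold P0
  rw [Finset.prod_ne_zero_iff]
  exact fun c _ => expand_ne K hm c

section

variable (N : ℕ) [NeZero N] (K : Type) [Field K] [NumberField K] [IsCyclotomicExtension {N} ℚ K]
  {m : ℕ} (hm : 0 < m) (C : Finset (𝓞 K)) (Ω : Type) [Field Ω] [NumberField Ω] [Algebra K Ω]
  [IsSplittingField K Ω ((P0 K m C).map (algebraMap ℚ K))]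

include N K hm C in
theorem galois : IsGalois ℚ Ω := by
  have h1 : IsSplittingField ℚ K (cyclotomic N ℚ) :=
    IsCyclotomicExtension.splitting_field_cyclotomic N ℚ K
  have h2 : IsSplittingField ℚ Ω (cyclotomic N ℚ * P0 K m C) :=
    IsSplittingField.mul (K := K) Ω _ _ (cyclotomic_ne_zero N ℚ) (P0_ne K hm C)
  have h3 : Normal ℚ Ω := Normal.of_isSplittingField (cyclotomic N ℚ * P0 K m C)
  exact ⟨⟩

omit [NeZero N] [IsSplittingField K Ω ((P0 K m C).map (algebraMap ℚ K))] in
include N in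
/-- the roots -/
theorem root_pow (b : Ω) (hb : b ∈ ((P0 K m C).map (algebraMap ℚ K)).rootSet Ω) :
    ∃ c : K, b ^ m = algebraMap K Ω c := by
  have hG : IsGalois ℚ K := IsCyclotomicExtension.isGalois {N} ℚ K
  have h1 := (mem_rootSet.1 hb).2
  rw [aeval_map_algebraMap] at h1
  unfold P0 at h1
  rw [map_prod, Finset.prod_eq_zero_iff] at h1
  obtain ⟨c, hc, h2⟩ := h1
  rw [expand_aeval] at h2
  have hs : ((minpoly ℚ (c : K)).map (algebraMap ℚ K)).Splits := Normal.splits inferInstance _
  have h3 : b ^ m ∈ (minpoly ℚ (c : K)).rootSet Ω :=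
    mem_rootSet.2 ⟨minpoly.ne_zero (Algebra.IsIntegral.isIntegral _), h2⟩
  have h4 := hs.image_rootSet (IsScalarTower.toAlgHom ℚ K Ω)
  rw [← h4] at h3
  obtain ⟨x, -, hx⟩ := h3
  exact ⟨x, hx.symm⟩

omit [NumberField Ω] in
include hm in
theorem exists_root (c : 𝓞 K) (hc : c ∈ C) : ∃ b : Ω, b ^ m = algebraMap K Ω c := by
  have h1 : (((P0 K m C).map (algebraMap ℚ K)).map (algebraMap K Ω)).Splits :=
    IsSplittingField.splits Ω _
  have h2 : (X ^ m - Polynomial.C (c : K)) ∣ (P0 K m C).map (algebraMap ℚ K) := by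
    have h3 : (X - Polynomial.C (c : K)) ∣ (minpoly ℚ (c : K)).map (algebraMap ℚ K) := by
      rw [dvd_iff_isRoot, IsRoot.def, eval_map_algebraMap]
      exact minpoly.aeval ℚ (c : K)
    have h4 : expand K m (X - Polynomial.C (c : K)) ∣ expand K m ((minpoly ℚ (c : K)).map (algebraMap ℚ K)) :=
      _root_.map_dvd _ h3
    rw [map_sub, expand_X, expand_C, ← map_expand] at h4
    refine h4.trans ?_
    unfold P0
    rw [Polynomial.map_prod]
    exact Finset.dvd_prod_of_mem (fun c : 𝓞 K => (expand ℚ m (minpoly ℚ (c : K))).map (algebraMap ℚ K)) hc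
  have h3 : ((X ^ m - Polynomial.C (c : K)).map (algebraMap K Ω)).Splits := by
    refine h1.of_dvd ?_ (Polynomial.map_dvd _ h2)
    rw [Ne, Polynomial.map_eq_zero, Polynomial.map_eq_zero]
    exact P0_ne K hm C
  obtain ⟨b, hb⟩ := h3.exists_eval_eq_zero (by
    rw [degree_map, degree_X_pow_sub_C hm]
    exact_mod_cast hm.ne')
  refine ⟨b, ?_⟩
  simp only [Polynomial.map_sub, Polynomial.map_pow, map_X, map_C, eval_sub, eval_pow, eval_X,
    eval_C] at hb
  exact sub_eq_zero.1 hb

include N C in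
theorem pow_one (hmN : m ∣ N) (g : Gal(Ω/ℚ))
    (hg : ∀ x : K, g (algebraMap K Ω x) = algebraMap K Ω x) : g ^ m = 1 := by
  have hz := IsCyclotomicExtension.zeta_spec N ℚ K
  have hz2 : IsPrimitiveRoot (algebraMap K Ω (IsCyclotomicExtension.zeta N ℚ K)) N :=
    hz.map_of_injective (algebraMap K Ω).injective
  have hgk : ∀ k : ℕ, ∀ x : K, (g ^ k) (algebraMap K Ω x) = algebraMap K Ω x := by
    intro k x
    induction k with
    | zero => simp
    | succ k ih => rw [pow_succ, AlgEquiv.mul_apply, hg, ih]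
  have hroot : ∀ b ∈ ((P0 K m C).map (algebraMap ℚ K)).rootSet Ω, (g ^ m) b = b := by
    intro b hb
    obtain ⟨c, hc⟩ := root_pow N K C Ω b hb
    by_cases hb0 : b = 0
    · rw [hb0, map_zero]
    have h1 : (g b) ^ m = b ^ m := by rw [← map_pow, hc, hg]
    have h2 : (g b / b) ^ m = 1 := by rw [div_pow, h1, div_self (pow_ne_zero _ hb0)]
    have h3 : (g b / b) ^ N = 1 := by
      obtain ⟨d, hd⟩ := hmN
      rw [hd, pow_mul, h2, _root_.one_pow]
    obtain ⟨i, -, hi⟩ := hz2.eq_pow_of_pow_eq_one h3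
    set ζ : K := (IsCyclotomicExtension.zeta N ℚ K) ^ i with hζ
    have h4 : g b = algebraMap K Ω ζ * b := by
      rw [hζ, map_pow, hi, div_mul_cancel₀ _ hb0]
    have h5 : ∀ k : ℕ, (g ^ k) b = algebraMap K Ω ζ ^ k * b := by
      intro k
      induction k with
      | zero => simp
      | succ k ih =>
        rw [pow_succ', AlgEquiv.mul_apply, ih, map_mul, map_pow, hg, h4]
        ring
    rw [h5 m]
    have h6 : algebraMap K Ω ζ ^ m = 1 := by
      rw [hζ, map_pow, hi, h2]
    rw [h6, one_mul]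
  let h : Ω →ₐ[K] Ω := { ((g ^ m : Gal(Ω/ℚ)) : Ω →+* Ω) with commutes' := hgk m }
  have hh : h = AlgHom.id K Ω := by
    refine AlgHom.ext_of_adjoin_eq_top (IsSplittingField.adjoin_rootSet Ω
      ((P0 K m C).map (algebraMap ℚ K))) fun b hb => ?_
    exact hroot b hb
  ext x
  exact DFunLike.congr_fun hh x

end

/-- **OM.** -/
theorem om : Pool.Agent.H180.RS.PropOm := by
  intro N _ K _ _ _ m hm hmN C
  set P : K[X] := (P0 K m C).map (algebraMap ℚ K) with hP
  have hchar : CharZero P.SplittingField := charZero_of_injective_algebraMap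
    (algebraMap K P.SplittingField).injective
  have hfin : FiniteDimensional ℚ P.SplittingField := Module.Finite.trans K P.SplittingField
  have hNF : NumberField P.SplittingField := ⟨⟩
  refine ⟨P.SplittingField, inferInstance, hNF, algebraMap K P.SplittingField, ?_, ?_, ?_⟩
  · exact galois N K hm C P.SplittingField
  · exact fun c hc => exists_root K hm C P.SplittingField c hc
  · exact fun g hg => pow_one N K C P.SplittingField hmN g hg

end Pool.Agent.Q296.RS
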